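import Mathlib

/-!
THE UNIFORM KERNEL DEPTH (MP_7d29a1_pr, Storm Z): if the response `X` of the shears along the bridge of every bracket is
at least `-M` off a small probability, then the quotient of the kernels of the sheared and of the unsheared environment is
between `e^(-M) / 2` and `2 e^M` for all brackets at once. (helper23)
-/

namespace Pool.Agent.W_7d29a1_Z23

open MeasureTheory

variable {Ω : Type*} [MeasurableSpace Ω] {P : Measure Ω} [IsProbabilityMeasure P]

/-- Deterministic: a weighted sum of exponentials is large if less than one half of the mass is below the level. -/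
theorem low_det {σ : Type*} (s : Finset σ) (u X : σ → ℝ) (hu : ∀ i ∈ s, 0 ≤ u i) {M : ℝ}
    (h : ∑ i ∈ s, (if X i < -M then u i else 0) ≤ (∑ i ∈ s, u i) / 2) :
    Real.exp (-M) / 2 * ∑ i ∈ s, u i ≤ ∑ i ∈ s, u i * Real.exp (X i) := by
  have key : ∀ i ∈ s, Real.exp (-M) * (u i - if X i < -M then u i else 0) ≤ u i * Real.exp (X i) := by
    intro i hi
    split_ifs with hX
    · simpa using mul_nonneg (hu i hi) (Real.exp_pos (X i)).le
    · rw [sub_zero, mul_comm]
      exact mul_le_mul_of_nonneg_left (Real.exp_le_exp.mpr (not_lt.mp hX)) (hu i hi)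
  have h2 := Finset.sum_le_sum key
  rw [← Finset.mul_sum, Finset.sum_sub_distrib] at h2
  nlinarith [Real.exp_pos (-M)]

/-- Markov for a function with values in the nonnegative reals, threshold one half. -/
theorem half_markov {q : Ω → ℝ} (mq : Measurable q) (q0 : ∀ w, 0 ≤ q w) (q1 : ∀ w, q w ≤ 1) :
    P.real {w | 1 / 2 < q w} ≤ 2 * ∫ w, q w ∂P := by
  have hi : Integrable q P := by
    refine Integrable.of_bound mq.aestronglyMeasurable 1 (Filter.Eventually.of_forall fun w => ?_)
    rw [Real.norm_eq_abs, abs_of_nonneg (q0 w)]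
    exact q1 w
  have h := mul_meas_ge_le_integral_of_nonneg (μ := P) (Filter.Eventually.of_forall q0) hi (1 / 2)
  have hsub : P.real {w | 1 / 2 < q w} ≤ P.real {w | 1 / 2 ≤ q w} :=
    measureReal_mono (fun w (hw : 1 / 2 < q w) => (le_of_lt hw : 1 / 2 ≤ q w))
  have h' : 1 / 2 * P.real {w | 1 / 2 ≤ q w} ≤ ∫ w, q w ∂P := h
  linarith

/-- One bracket: symbols `v : κ` (uniform), bridge weights `u`, response `X`, sheared kernel `KV`. -/
theorem uk_low {κ : Type*} [Fintype κ] {σ : Type*} (s : Finset σ) (u : Ω → σ → ℝ) (X : κ → Ω → σ → ℝ)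
    (KV : κ → Ω → ℝ) {M δ : ℝ} (hu : ∀ w, ∀ i ∈ s, 0 ≤ u w i) (hK : ∀ w, 0 < ∑ i ∈ s, u w i)
    (mu : ∀ i ∈ s, Measurable fun w => u w i) (mX : ∀ v, ∀ i ∈ s, Measurable fun w => X v w i)
    (hsk : ∀ v w, ∑ i ∈ s, u w i * Real.exp (X v w i) ≤ KV v w)
    (htail : ∑ v, ∫ w, (∑ i ∈ s, (if X v w i < -M then u w i else 0)) / ∑ i ∈ s, u w i ∂P ≤ Fintype.card κ * δ) :
    ∑ v, P.real {w | KV v w < Real.exp (-M) / 2 * ∑ i ∈ s, u w i} ≤ Fintype.card κ * (2 * δ) := by
  have h1 : ∀ v, P.real {w | KV v w < Real.exp (-M) / 2 * ∑ i ∈ s, u w i} ≤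
      2 * ∫ w, (∑ i ∈ s, (if X v w i < -M then u w i else 0)) / ∑ i ∈ s, u w i ∂P := by
    intro v
    have mq : Measurable fun w => (∑ i ∈ s, (if X v w i < -M then u w i else 0)) / ∑ i ∈ s, u w i := by
      refine Measurable.div ?_ (Finset.measurable_fun_sum s fun i hi => mu i hi)
      refine Finset.measurable_fun_sum s fun i hi => Measurable.ite ?_ (mu i hi) measurable_const
      exact measurableSet_lt (mX v i hi) measurable_const
    have hle : ∀ w, ∑ i ∈ s, (if X v w i < -M then u w i else 0) ≤ ∑ i ∈ s, u w i := by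
      intro w
      refine Finset.sum_le_sum fun i hi => ?_
      split_ifs
      · exact le_rfl
      · exact hu w i hi
    have q0 : ∀ w, 0 ≤ (∑ i ∈ s, (if X v w i < -M then u w i else 0)) / ∑ i ∈ s, u w i := by
      intro w
      refine div_nonneg (Finset.sum_nonneg fun i hi => ?_) (hK w).le
      split_ifs
      · exact hu w i hi
      · exact le_rfl
    have q1 : ∀ w, (∑ i ∈ s, (if X v w i < -M then u w i else 0)) / ∑ i ∈ s, u w i ≤ 1 := by
      intro w
      rw [div_le_one (hK w)]
      exact hle w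
    refine le_trans (measureReal_mono ?_) (half_markov (P := P) mq q0 q1)
    intro w hw
    simp only [Set.mem_ofPred_eq] at hw ⊢
    by_contra hcon
    have h2 : ∑ i ∈ s, (if X v w i < -M then u w i else 0) ≤ (∑ i ∈ s, u w i) / 2 := by
      have h3 := not_lt.mp hcon
      rw [div_le_iff₀ (hK w)] at h3
      linarith
    have h4 := low_det s (u w) (X v w) (hu w) h2
    exact absurd (lt_of_lt_of_le hw h4) (not_lt.mpr (hsk v w))
  calc ∑ v, P.real {w | KV v w < Real.exp (-M) / 2 * ∑ i ∈ s, u w i}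
      ≤ ∑ v, 2 * ∫ w, (∑ i ∈ s, (if X v w i < -M then u w i else 0)) / ∑ i ∈ s, u w i ∂P :=
        Finset.sum_le_sum fun v _ => h1 v
    _ = 2 * ∑ v, ∫ w, (∑ i ∈ s, (if X v w i < -M then u w i else 0)) / ∑ i ∈ s, u w i ∂P := by
        rw [Finset.mul_sum]
    _ ≤ Fintype.card κ * (2 * δ) := by linarith

/-- **The uniform kernel depth.** `K b w` = kernel of the bracket `b` in the environment `w`, `KV v b w` = kernel with the
jumps of `v`; `T v` = the group action, `sh v b` = the bracket in the sheared coordinates, `neg v` = the inverse symbol. -/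
theorem uk {κ : Type*} [Fintype κ] {β : Type*} (B B' : Finset β) (K : β → Ω → ℝ) (KV : κ → β → Ω → ℝ)
    (T : κ → Ω → Ω) (hT : ∀ v, MeasurePreserving (T v) P P) (neg : κ ≃ κ) (sh : κ → β → β)
    (hsh : ∀ v, ∀ b ∈ B, sh v b ∈ B') (mK : ∀ b, Measurable (K b)) (mKV : ∀ v b, Measurable (KV v b))
    (inv1 : ∀ v, ∀ b ∈ B, ∀ w, KV v b w = K (sh v b) (T v w))
    (inv2 : ∀ v, ∀ b ∈ B, ∀ w, K b w = KV (neg v) (sh v b) (T v w)) {q d : ℝ}
    (low : ∀ b, b ∈ B ∨ b ∈ B' → ∑ v, P.real {w | KV v b w < q * K b w} ≤ Fintype.card κ * d) :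
    ∑ v, P.real {w | ∃ b ∈ B, KV v b w < q * K b w ∨ K b w < q * KV v b w} ≤
      Fintype.card κ * ((B.card + B'.card) * d) := by
  have hA : ∀ (C : Finset β), (∀ b ∈ C, b ∈ B ∨ b ∈ B') →
      ∑ v, P.real {w | ∃ b ∈ C, KV v b w < q * K b w} ≤ Fintype.card κ * (C.card * d) := by
    intro C hC
    calc ∑ v, P.real {w | ∃ b ∈ C, KV v b w < q * K b w}
        ≤ ∑ v, ∑ b ∈ C, P.real {w | KV v b w < q * K b w} := by
          refine Finset.sum_le_sum fun v _ => ?_
          have : {w | ∃ b ∈ C, KV v b w < q * K b w} = ⋃ b ∈ C, {w | KV v b w < q * K b w} := by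
            ext w
            simp
          rw [this]
          exact measureReal_biUnion_finset_le C _
      _ = ∑ b ∈ C, ∑ v, P.real {w | KV v b w < q * K b w} := Finset.sum_comm
      _ ≤ ∑ b ∈ C, (Fintype.card κ * d : ℝ) := Finset.sum_le_sum fun b hb => low b (hC b hb)
      _ = Fintype.card κ * (C.card * d) := by
          rw [Finset.sum_const, nsmul_eq_mul]
          ring
  have h1 := hA B fun b hb => Or.inl hb
  have h2 := hA B' fun b hb => Or.inr hb
  have hup : ∀ v, P.real {w | ∃ b ∈ B, K b w < q * KV v b w} ≤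
      P.real {w | ∃ b ∈ B', KV (neg v) b w < q * K b w} := by
    intro v
    have hm : MeasurableSet {w | ∃ b ∈ B', KV (neg v) b w < q * K b w} := by
      have : {w | ∃ b ∈ B', KV (neg v) b w < q * K b w} = ⋃ b ∈ B', {w | KV (neg v) b w < q * K b w} := by
        ext w
        simp
      rw [this]
      exact Finset.measurableSet_biUnion _ fun b _ => measurableSet_lt (mKV _ b) ((mK b).const_mul q)
    rw [← (hT v).measureReal_preimage hm.nullMeasurableSet]
    refine measureReal_mono ?_
    rintro w ⟨b, hb, hlt⟩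
    refine ⟨sh v b, hsh v b hb, ?_⟩
    rw [← inv2 v b hb w, ← inv1 v b hb w]
    exact hlt
  calc ∑ v, P.real {w | ∃ b ∈ B, KV v b w < q * K b w ∨ K b w < q * KV v b w}
      ≤ ∑ v, (P.real {w | ∃ b ∈ B, KV v b w < q * K b w} + P.real {w | ∃ b ∈ B', KV (neg v) b w < q * K b w}) := by
        refine Finset.sum_le_sum fun v _ => ?_
        refine le_trans ?_ (add_le_add_right (hup v) _)
        refine le_trans (measureReal_mono ?_) (measureReal_union_le _ _)
        rintro w ⟨b, hb, h | h⟩
        · exact Or.inl ⟨b, hb, h⟩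
        · exact Or.inr ⟨b, hb, h⟩
    _ = ∑ v, P.real {w | ∃ b ∈ B, KV v b w < q * K b w} + ∑ v, P.real {w | ∃ b ∈ B', KV v b w < q * K b w} := by
        rw [Finset.sum_add_distrib,
          Equiv.sum_comp neg (fun v => P.real {w | ∃ b ∈ B', KV v b w < q * K b w})]
    _ ≤ Fintype.card κ * ((B.card + B'.card) * d) := by
        have : (Fintype.card κ : ℝ) * ((B.card + B'.card) * d) =
          Fintype.card κ * (B.card * d) + Fintype.card κ * (B'.card * d) := by ring
        rw [this]
        exact add_le_add h1 h2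

/-- The two sides of the near tie from the uniform kernel depth and the two Markov lines: `S` left at the bracket
(`K ≤ T KL`), `S'` right at the bracket (`KV ≤ T KRV`, `KRV ≤ KV`). -/
theorem tie_sides {K KL KV KRV T q : ℝ} (hKL : 0 < KL) (hT : 0 < T) (hq : 0 < q) (hL : KL ≤ K)
    (h1 : q * K ≤ KV) (h2 : q * KV ≤ K) :
    (K ≤ T * KL → KRV ≤ KV → KRV / KL ≤ T / q) ∧ (KV ≤ T * KRV → q / T ≤ KRV / KL) := by
  constructor
  · intro h3 h4
    rw [div_le_div_iff₀ hKL hq]
    nlinarith
  · intro h3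
    rw [div_le_div_iff₀ hT hKL]
    nlinarith

end Pool.Agent.W_7d29a1_Z23
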